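import Pool.Agent.H33.G.R_seed8.H499R2.CZ.Defs

/-! Project CZ, task A: transitions. -/

set_option autoImplicit false

namespace Pool.Agent.H499R2.CZ

open Pool.Agent.H320R2.PD Pool.Agent.H499R2.ND Finset Filter Topology

theorem FC_iter {d : ℤ} {R : Set ℤ} (hR : FC d R) {y : ℤ} (hy : y ∈ R) (i : ℕ) : (Td d)^[i] y ∈ R := by
  induction i with
  | zero => exact hy
  | succ i ih => rw [Function.iterate_succ_apply']; exact hR _ ih

theorem La_word {d : ℤ} (hd : Odd d) {R : Set ℤ} (hR : FC d R) {s : ℤ} {w : List ℕ}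
    (hw : ∀ a ∈ w, 1 ≤ a) {M x : ℤ} (hM : Odd M) (hx : Odd x) (hMS : M ∈ La d R s)
    (h : Vw d w M x) : x ∈ La d R (s - w.sum) := by
  have hit := iter_word hd w hw M x hM hx h
  obtain ⟨⟨k, hk⟩, hE⟩ := hMS
  refine ⟨?_, ?_⟩
  · rcases le_or_gt w.sum k with h1 | h1
    · refine ⟨k - w.sum, ?_⟩
      rw [← hit, ← Function.iterate_add_apply, Nat.sub_add_cancel h1]
      exact hk
    · refine ⟨0, ?_⟩
      have h2 := FC_iter hR hk (w.sum - k)
      rw [← Function.iterate_add_apply, Nat.sub_add_cancel h1.le, hit] at h2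
      exact h2
  · rintro ⟨j, hj, hjR⟩
    apply hE
    refine ⟨j + w.sum, by rw [Nat.cast_add]; omega, ?_⟩
    rw [Function.iterate_add_apply, hit]
    exact hjR

theorem Ea_word {d : ℤ} (hd : Odd d) {R : Set ℤ} (hR : FC d R) {s : ℤ} {w : List ℕ}
    (hw : ∀ a ∈ w, 1 ≤ a) {M x : ℤ} (hM : Odd M) (hx : Odd x) (hMS : M ∈ Ea d R s)
    (h : Vw d w M x) : x ∈ Ea d R (s - w.sum) ∪ R := by
  have hit := iter_word hd w hw M x hM hx h
  obtain ⟨k, hks, hk⟩ := hMS
  rcases le_or_gt w.sum k with h1 | h1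
  · left
    refine ⟨k - w.sum, by omega, ?_⟩
    rw [← hit, ← Function.iterate_add_apply, Nat.sub_add_cancel h1]
    exact hk
  · right
    have h2 := FC_iter hR hk (w.sum - k)
    rw [← Function.iterate_add_apply, Nat.sub_add_cancel h1.le, hit] at h2
    exact h2

theorem Bg_word {d : ℤ} (hd : Odd d) {R : Set ℤ} (hR : FC d R) {Y : ℤ} {w : List ℕ}
    (hw : ∀ a ∈ w, 1 ≤ a) {M x : ℤ} (hM : Odd M) (hx : Odd x) (hMS : M ∈ Bg d R Y)
    (h : Vw d w M x) : x ∈ Bg d R Y ∪ R := by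
  have hT := iter_word hd w hw M x hM hx h
  obtain ⟨k, hk, hmin, hY⟩ := hMS
  rcases le_or_gt w.sum k with hc | hc
  · left
    refine ⟨k - w.sum, ?_, ?_, ?_⟩
    · rw [← hT, ← Function.iterate_add_apply, Nat.sub_add_cancel hc]
      exact hk
    · intro i hi
      rw [← hT, ← Function.iterate_add_apply]
      exact hmin _ (by omega)
    · rw [← hT, ← Function.iterate_add_apply, Nat.sub_add_cancel hc]
      exact hY
  · right
    have e : w.sum = (w.sum - k) + k := by omega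
    rw [← hT, e, Function.iterate_add_apply]
    exact FC_iter hR hk _

end Pool.Agent.H499R2.CZ
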