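import Pool.Agent.H33.G.R_seed8.H499R2.CZ.Defs
import Pool.Agent.H33.G.R_seed8.H499R2.CL.G
import Pool.Agent.H33.G.R_seed8.H499R2.CZ.A
import Pool.Agent.H33.G.R_seed8.H499R2.CZ.F

/-! Project CZ, tasks G and H: tightness, first meeting values. -/

set_option autoImplicit false

namespace Pool.Agent.H499R2.CZ

open Pool.Agent.H320R2.PD Pool.Agent.H499R2.ND Finset Filter Topology

open Pool.Agent.H319R2.Lln (mu)

namespace GH

open TG

/-- the integers below `y` which meet `R` meet it within `W` steps -/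
theorem exW (d : ℤ) (R : Set ℤ) (y : ℝ) : ∃ W : ℕ, ∀ x : ℤ, 0 < x → (x : ℝ) < y → x ∈ Me d R →
    ∃ k ≤ W, (Td d)^[k] x ∈ R := by
  classical
  have hM : ∀ a : ℕ, ∃ M : ℕ, (∃ k, (Td d)^[k] (a : ℤ) ∈ R) → ∃ k ≤ M, (Td d)^[k] (a : ℤ) ∈ R := by
    intro a
    by_cases h : ∃ k, (Td d)^[k] (a : ℤ) ∈ R
    · obtain ⟨k, hk⟩ := h
      exact ⟨k, fun _ => ⟨k, le_rfl, hk⟩⟩
    · exact ⟨0, fun h' => absurd h' h⟩
  choose M hM using hM
  refine ⟨(range (⌈y⌉₊ + 1)).sup M, fun x hx hxy hm => ?_⟩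
  obtain ⟨a, rfl⟩ := Int.eq_ofNat_of_zero_le hx.le
  obtain ⟨k, hk, hR⟩ := hM a hm
  refine ⟨k, hk.trans (Finset.le_sup (f := M) (mem_range.2 ?_)), hR⟩
  have h1 : (a : ℝ) < y := by exact_mod_cast hxy
  have h2 : (a : ℝ) ≤ ⌈y⌉₊ := h1.le.trans (Nat.le_ceil _)
  have : a ≤ ⌈y⌉₊ := by exact_mod_cast h2
  omega

/-- the integers below `y` meet `R` first at values bounded by `Y` -/
theorem exY (d : ℤ) (R : Set ℤ) (y : ℝ) : ∃ Y : ℕ, ∀ x : ℤ, 0 < x → (x : ℝ) < y →
    x ∉ Bg d R Y := by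
  classical
  have hM : ∀ a : ℕ, ∃ M : ℕ, ∀ k : ℕ, (Td d)^[k] (a : ℤ) ∈ R → (∀ i < k, (Td d)^[i] (a : ℤ) ∉ R) →
      |(Td d)^[k] (a : ℤ)| ≤ M := by
    intro a
    by_cases h : ∃ k, (Td d)^[k] (a : ℤ) ∈ R
    · refine ⟨|(Td d)^[Nat.find h] (a : ℤ)|.toNat, ?_⟩
      intro k hk hmin
      have : k = Nat.find h := by
        apply le_antisymm
        · by_contra hcon
          exact hmin _ (not_le.1 hcon) (Nat.find_spec h)
        · exact Nat.find_min' h hk
      rw [this]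
      exact Int.self_le_toNat _
    · exact ⟨0, fun k hk => absurd ⟨k, hk⟩ h⟩
  choose M hM using hM
  refine ⟨(range (⌈y⌉₊ + 1)).sup M, fun x hx hxy hm => ?_⟩
  obtain ⟨a, rfl⟩ := Int.eq_ofNat_of_zero_le hx.le
  obtain ⟨k, hk, hmin, hY⟩ := hm
  have h1 := hM a k hk hmin
  have h2 : M a ≤ (range (⌈y⌉₊ + 1)).sup M := by
    refine Finset.le_sup (f := M) (mem_range.2 ?_)
    have h1 : (a : ℝ) < y := by exact_mod_cast hxy
    have h2 : (a : ℝ) ≤ ⌈y⌉₊ := h1.le.trans (Nat.le_ceil _)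
    have : a ≤ ⌈y⌉₊ := by exact_mod_cast h2
    omega
  have h3 : (M a : ℤ) ≤ ((range (⌈y⌉₊ + 1)).sup M : ℕ) := by exact_mod_cast h2
  omega

end GH

open TG

theorem late_tight {d : ℤ} (hd : Odd d) (hd3 : IsCoprime d 3) {R : Set ℤ} (hR : FC d R) {η : ℝ}
    (hη : 0 < η) : ∃ K A0 : ℝ, 1 ≤ K ∧ 0 < A0 ∧
    ∀ A : ℝ, A0 ≤ A → ∀ s : ℤ, Real.log A / mu + K * Real.sqrt (Real.log A) ≤ s → ∀ m : ℕ,
      (m : ℝ) ^ 2 ≤ Real.log A → PB (La d R s) A m η := by
  classical
  obtain ⟨C, hC, hall⟩ := all_scalesW hd hd3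
  have hmu := mu_pos'
  obtain ⟨K, hK4, hKη⟩ := exK hC hη
  obtain ⟨y, hy, hy1000, hyη⟩ := exy hC hη
  obtain ⟨W, hW⟩ := GH.exW d R y
  refine ⟨160 * K, Real.exp (max 1000 ((W : ℝ) ^ 4)) + y, by linarith, by positivity, ?_⟩
  intro A hA s hs m hm
  have hA1 : Real.exp (max 1000 ((W : ℝ) ^ 4)) ≤ A := by linarith
  have hA0 : 0 < A := (Real.exp_pos _).trans_le hA1
  have hAy : y / 2 < A := by linarith [Real.exp_pos (max 1000 ((W : ℝ) ^ 4))]
  have hLA : max 1000 ((W : ℝ) ^ 4) ≤ Real.log A := (Real.le_log_iff_exp_le hA0).2 hA1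
  have hL1 : 1000 ≤ Real.log A := (le_max_left _ _).trans hLA
  have hL2 : (W : ℝ) ^ 4 ≤ Real.log A := (le_max_right _ _).trans hLA
  have key := hall K (Real.log A) y 0 hK4 le_rfl hy hy1000 ℤ (fun s => La d R s) ∅
    (fun s A' => 800 ≤ Real.log A' ∧
      Real.log A' / mu + 160 * K * Real.sqrt (Real.sqrt (Real.log A * Real.log A')) ≤ s)
    (fun s T => s - T) ?_ ?_ ?_ ?_ s A hAy ?_ le_rfl m hm
  · refine PB_mono' hA0 key ?_
    have h1 : Real.log A / Real.log A = 1 := div_self (by linarith)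
    rw [h1]
    have : C * (1 + 0) / Real.log (y / 2) = C / Real.log (y / 2) := by ring
    rw [this]
    linarith
  · -- base
    rintro τ A' hA' ⟨hok1, hok2⟩ hAy' m' u v hu
    have hemp : cls (La d R τ) A' (2 * A') m' u v = ∅ := by
      rw [Finset.eq_empty_iff_forall_notMem]
      intro x hx
      rw [mem_cls] at hx
      obtain ⟨⟨h1, h2⟩, _, h4, _⟩ := hx
      have hx0 : 0 < x := by
        have : (0 : ℝ) < x := hA'.trans_le h1
        exact_mod_cast this
      obtain ⟨k, hk, hkR⟩ := hW x hx0 (by linarith) h4.1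
      apply h4.2
      refine ⟨k, ?_, hkR⟩
      have h5 : (W : ℝ) ≤ Real.sqrt (Real.sqrt (Real.log A * Real.log A')) := by
        apply le_ss (Nat.cast_nonneg W)
        refine hL2.trans ?_
        nlinarith
      have h6 : 0 ≤ Real.log A' / mu := by
        apply div_nonneg _ hmu.le
        linarith
      have h7 : (k : ℝ) ≤ W := by exact_mod_cast hk
      have h8 : (W : ℝ) ≤ 160 * K * Real.sqrt (Real.sqrt (Real.log A * Real.log A')) := by
        have h9 := mul_le_mul_of_nonneg_left h5 (show 0 ≤ 160 * K by linarith)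
        have h10 : (0 : ℝ) ≤ W := Nat.cast_nonneg W
        nlinarith
      have h9 : (k : ℝ) ≤ (τ : ℝ) := by linarith
      exact_mod_cast h9
    rw [hemp]
    simp
  · -- Q
    intro A' hA' _ m' _ u v _
    have hemp : cls (∅ : Set ℤ) A' (2 * A') m' u v = ∅ := by
      rw [Finset.eq_empty_iff_forall_notMem]
      intro x hx
      rw [mem_cls] at hx
      exact hx.2.2.1
    rw [hemp]
    simp
  · -- step
    rintro τ A' hA' ⟨hok1, hok2⟩ hAy' hLL T hT
    have hL' : 1000 ≤ Real.log A' := hy1000.trans (Real.log_le_log (by positivity) hAy'.le)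
    obtain ⟨h1, h2, h3⟩ := tight_next (by linarith) hA' hL' hLL hT
    refine ⟨h1, ?_⟩
    have h4 := (abs_le.1 h2).2
    push_cast
    linarith
  · -- transition
    intro τ w hw M x hM hx hM0 hMS h
    exact Or.inl (La_word hd hR hw hM hx hMS h)
  · refine ⟨by linarith, ?_⟩
    rw [Real.sqrt_mul_self (by linarith)]
    exact hs

theorem early_tight {d : ℤ} (hd : Odd d) (hd3 : IsCoprime d 3) {R : Set ℤ} (hR : FC d R) (hS : Sp R)
    {η : ℝ} (hη : 0 < η) : ∃ K A0 : ℝ, 1 ≤ K ∧ 0 < A0 ∧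
    ∀ A : ℝ, A0 ≤ A → ∀ s : ℤ, (s : ℝ) ≤ Real.log A / mu - K * Real.sqrt (Real.log A) → ∀ m : ℕ,
      (m : ℝ) ^ 2 ≤ Real.log A → PB (Ea d R s) A m η := by
  classical
  obtain ⟨C, hC, hall⟩ := all_scalesW hd hd3
  obtain ⟨CR, hCR, hSp⟩ := hS
  have hmu := mu_pos'
  obtain ⟨K, hK4, hKη⟩ := exK hC hη
  obtain ⟨y, hy, hy1000, hyη⟩ := exy (show 0 < C * (1 + CR) by positivity) hη
  set B : ℝ := Real.log (y / 2) / mu with hB
  have hB0 : 0 < B := div_pos (by linarith) hmu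
  refine ⟨160 * K, Real.exp (max 1000 (B ^ 4)) + y, by linarith, by positivity, ?_⟩
  intro A hA s hs m hm
  have hA1 : Real.exp (max 1000 (B ^ 4)) ≤ A := by linarith
  have hA0 : 0 < A := (Real.exp_pos _).trans_le hA1
  have hAy : y / 2 < A := by linarith [Real.exp_pos (max 1000 (B ^ 4))]
  have hLA : max 1000 (B ^ 4) ≤ Real.log A := (Real.le_log_iff_exp_le hA0).2 hA1
  have hL1 : 1000 ≤ Real.log A := (le_max_left _ _).trans hLA
  have hL2 : B ^ 4 ≤ Real.log A := (le_max_right _ _).trans hLA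
  have key := hall K (Real.log A) y CR hK4 hCR hy hy1000 ℤ (fun s => Ea d R s) R
    (fun s A' => 800 ≤ Real.log A' ∧
      (s : ℝ) ≤ Real.log A' / mu - 160 * K * Real.sqrt (Real.sqrt (Real.log A * Real.log A')))
    (fun s T => s - T) ?_ ?_ ?_ ?_ s A hAy ?_ le_rfl m hm
  · refine PB_mono' hA0 key ?_
    have h1 : Real.log A / Real.log A = 1 := div_self (by linarith)
    rw [h1]
    linarith
  · -- base
    rintro τ A' hA' ⟨hok1, hok2⟩ hAy' m' u v hu
    have hemp : cls (Ea d R τ) A' (2 * A') m' u v = ∅ := by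
      rw [Finset.eq_empty_iff_forall_notMem]
      intro x hx
      rw [mem_cls] at hx
      obtain ⟨_, _, h4, _⟩ := hx
      obtain ⟨k, hk, _⟩ := h4
      have h5 : B ≤ Real.sqrt (Real.sqrt (Real.log A * Real.log A')) := by
        apply le_ss hB0.le
        refine hL2.trans ?_
        nlinarith
      have h6 : Real.log A' / mu ≤ B :=
        div_le_div_of_nonneg_right (Real.log_le_log hA' hAy') hmu.le
      have h8 : B < 160 * K * Real.sqrt (Real.sqrt (Real.log A * Real.log A')) := by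
        have h9 := mul_le_mul_of_nonneg_left h5 (show 0 ≤ 160 * K by linarith)
        nlinarith
      have h9 : (τ : ℝ) < 0 := by linarith
      have h10 : τ < 0 := by exact_mod_cast h9
      omega
    rw [hemp]
    simp
  · -- Q
    intro A' hA' h800 m' hm'
    exact hSp A' hA' (by linarith) m' hm'
  · -- step
    rintro τ A' hA' ⟨hok1, hok2⟩ hAy' hLL T hT
    have hL' : 1000 ≤ Real.log A' := hy1000.trans (Real.log_le_log (by positivity) hAy'.le)
    obtain ⟨h1, h2, h3⟩ := tight_next (by linarith) hA' hL' hLL hT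
    refine ⟨h1, ?_⟩
    have h4 := (abs_le.1 h2).1
    push_cast
    linarith
  · -- transition
    intro τ w hw M x hM hx hM0 hMS h
    exact Ea_word hd hR hw hM hx hMS h
  · refine ⟨by linarith, ?_⟩
    rw [Real.sqrt_mul_self (by linarith)]
    exact hs

theorem Bg_PB {d : ℤ} (hd : Odd d) (hd3 : IsCoprime d 3) {R : Set ℤ} (hR : FC d R) (hS : Sp R)
    {η : ℝ} (hη : 0 < η) : ∃ (Y : ℕ) (A0 : ℝ), 0 < A0 ∧
    ∀ A : ℝ, A0 ≤ A → ∀ m : ℕ, (m : ℝ) ^ 2 ≤ Real.log A → PB (Bg d R Y) A m η := by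
  obtain ⟨C, hC, hall⟩ := all_scalesW hd hd3
  obtain ⟨CR, hCR, hCR'⟩ := hS
  obtain ⟨K, hK4, hKη⟩ := exK hC hη
  obtain ⟨y, hy, hy1000, hyη⟩ := exy (C := C * (1 + CR)) (by positivity) hη
  obtain ⟨Y, hY⟩ := GH.exY d R y
  refine ⟨Y, y, hy, ?_⟩
  intro A hA m hm
  have hA0 : 0 < A := hy.trans_le hA
  have hAy : y / 2 < A := by linarith
  have hL1 : 1000 ≤ Real.log A := hy1000.trans (Real.log_le_log (by positivity) hAy.le)
  have key := hall K (Real.log A) y CR hK4 hCR hy hy1000 Unit (fun _ => Bg d R Y) R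
    (fun _ _ => True) (fun _ _ => ()) ?_ ?_ ?_ ?_ () A hAy trivial le_rfl m hm
  · refine PB_mono' hA0 key ?_
    have h1 : Real.log A / Real.log A = 1 := div_self (by linarith)
    rw [h1]
    linarith
  · intro _ A' hA' _ hAy' m' u v hu
    have hemp : cls (Bg d R Y) A' (2 * A') m' u v = ∅ := by
      rw [Finset.eq_empty_iff_forall_notMem]
      intro x hx
      rw [mem_cls] at hx
      obtain ⟨⟨h1, h2⟩, _, h4, _⟩ := hx
      have hx0 : 0 < x := by
        have : (0 : ℝ) < x := hA'.trans_le h1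
        exact_mod_cast this
      exact hY x hx0 (by linarith) h4
    rw [hemp]
    simp
  · intro A' hA' h8 m' hm'
    exact hCR' A' hA' (by linarith) m' hm'
  · intro _ _ _ _ _ _ _ _
    trivial
  · intro _ w hw M x hM hx hM0 hMS h
    exact Bg_word hd hR hw hM hx hMS h

end Pool.Agent.H499R2.CZ
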