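import Pool.Agent.H33.G.R_seed8.H499R2.CZ.Defs

/-! Task CZ-K: composition of stages for the `3x+d` map. -/

set_option autoImplicit false

namespace Pool.Agent.H499R2.CZ

open Pool.Agent.H320R2.PD Pool.Agent.H499R2.ND Finset Filter Topology

open Pool.Agent.H319R2.Lln (mu)

namespace CZK

/-- the parameters of one stage -/
theorem params (d : ℤ) {N : ℕ} (hN : 20 ≤ N) {ε CQ : ℝ} (hε : 0 < ε) (hCQ : 0 ≤ CQ) :
    ∃ A1 : ℝ, 0 < A1 ∧ 1000 ≤ Real.log A1 ∧ ∀ A : ℝ, A1 ≤ A → ∀ k m m' : ℕ,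
      (m : ℝ) ^ 2 ≤ Real.log A → 2 / 5 * Real.log A ≤ k → (k : ℝ) ≤ Real.log A / 2 →
      m' = ⌊Real.sqrt (0.8 * Real.log A)⌋₊ →
      Err d A k m m' + 3 * Real.exp (-(((k : ℝ) / N) ^ 2 / (32 * k))) + CQ / (0.8 * Real.log A) ≤ ε := by
  obtain ⟨C, hC, h⟩ := err_flex 1 d
  have hNR : (20 : ℝ) ≤ N := by exact_mod_cast hN
  set L1 : ℝ := 1000 + 3 * C / ε + 80 * (N:ℝ) ^ 2 * |Real.log (9 / ε)| + 4 * CQ / ε with hL1
  have hL1a : 1000 ≤ L1 := by
    have h1 : 0 ≤ 3 * C / ε := by positivity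
    have h2 : 0 ≤ 80 * (N:ℝ) ^ 2 * |Real.log (9 / ε)| := by positivity
    have h3 : 0 ≤ 4 * CQ / ε := by positivity
    linarith
  have hL1b : 3 * C / ε ≤ L1 := by
    have h2 : 0 ≤ 80 * (N:ℝ) ^ 2 * |Real.log (9 / ε)| := by positivity
    have h3 : 0 ≤ 4 * CQ / ε := by positivity
    linarith
  have hL1c : 80 * (N:ℝ) ^ 2 * |Real.log (9 / ε)| ≤ L1 := by
    have h1 : 0 ≤ 3 * C / ε := by positivity
    have h3 : 0 ≤ 4 * CQ / ε := by positivity
    linarith
  have hL1d : 4 * CQ / ε ≤ L1 := by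
    have h1 : 0 ≤ 3 * C / ε := by positivity
    have h2 : 0 ≤ 80 * (N:ℝ) ^ 2 * |Real.log (9 / ε)| := by positivity
    linarith
  refine ⟨Real.exp L1, Real.exp_pos _, by rw [Real.log_exp]; exact hL1a, ?_⟩
  intro A hA k m m' hm hk1 hk2 hm'
  have hA0 : 0 < A := lt_of_lt_of_le (Real.exp_pos _) hA
  set t := Real.log A with ht
  have htL : L1 ≤ t := by
    rw [ht, ← Real.log_exp L1]
    exact Real.log_le_log (Real.exp_pos _) hA
  have ht0 : 0 < t := by linarith
  have e1 : Err d A k m m' ≤ ε / 3 := by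
    refine (h A hA0 (by linarith) k m m' hm hk1 hk2 hm').trans ?_
    rw [pow_one, div_le_iff₀ ht0]
    have : 3 * C / ε ≤ t := hL1b.trans htL
    rw [div_le_iff₀ hε] at this
    linarith
  have e2 : 3 * Real.exp (-(((k : ℝ) / N) ^ 2 / (32 * k))) ≤ ε / 3 := by
    have hk0 : 0 < (k:ℝ) := by linarith
    have h1 : ((k : ℝ) / N) ^ 2 / (32 * k) = k / (32 * (N:ℝ) ^ 2) := by
      field_simp
    have h2 : t / (80 * (N:ℝ) ^ 2) ≤ k / (32 * (N:ℝ) ^ 2) := by
      rw [div_le_div_iff₀ (by positivity) (by positivity)]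
      nlinarith [mul_le_mul_of_nonneg_right hk1 (by positivity : (0:ℝ) ≤ (N:ℝ)^2)]
    have h3 : Real.log (9 / ε) ≤ t / (80 * (N:ℝ) ^ 2) := by
      rw [le_div_iff₀ (by positivity)]
      have h4 : Real.log (9 / ε) * (80 * (N:ℝ) ^ 2) ≤ |Real.log (9 / ε)| * (80 * (N:ℝ) ^ 2) :=
        mul_le_mul_of_nonneg_right (le_abs_self _) (by positivity)
      linarith
    rw [h1]
    have h5 : Real.exp (-(k / (32 * (N:ℝ) ^ 2))) ≤ Real.exp (-Real.log (9 / ε)) :=
      Real.exp_le_exp.2 (by linarith)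
    rw [Real.exp_neg (Real.log (9 / ε)), Real.exp_log (by positivity), inv_div] at h5
    linarith
  have e3 : CQ / (0.8 * t) ≤ ε / 3 := by
    rw [div_le_iff₀ (by positivity)]
    have : 4 * CQ / ε ≤ t := hL1d.trans htL
    rw [div_le_iff₀ hε] at this
    nlinarith
  linarith

end CZK

theorem compose {d : ℤ} (hd : Odd d) (hd3 : IsCoprime d 3) {N : ℕ} (hN : 20 ≤ N) {ε CQ : ℝ} (hε : 0 < ε) (hCQ : 0 ≤ CQ) :
    ∃ A1 : ℝ, 0 < A1 ∧ 1000 ≤ Real.log A1 ∧ ∀ (S : ℤ → Set ℤ) (Q : Set ℤ) (ρ : ℝ → ℝ) (P : ℝ → Prop),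
    (∀ A, 0 < A → 800 ≤ Real.log A → ∀ m : ℕ, (m : ℝ) ^ 2 ≤ Real.log A → PB Q A m (CQ / Real.log A)) →
    (∀ s, ∀ w : List ℕ, (∀ a ∈ w, 1 ≤ a) → ∀ M x : ℤ, Odd M → Odd x → 0 < M → M ∈ S s → Vw d w M x →
      x ∈ S (s - w.sum) ∪ Q) →
    (∀ t, 0 ≤ ρ t) →
    (∀ A, 0 < A → P A → ∀ (s : ℤ) (m : ℕ), (m : ℝ) ^ 2 ≤ Real.log A →
      PB (S s) A m (ρ (s - Real.log A / mu))) →
    ∀ (ks : List ℕ) (cap : ℕ), (∀ k ∈ ks, 3 * k ≤ cap) → ∀ A : ℝ, 0 < A → Gd P N A1 ks A →
      ∀ (s : ℤ) (m : ℕ), (m : ℝ) ^ 2 ≤ Real.log A →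
        PB (S s) A m ((∑ w ∈ FW cap ks.sum, wwt w *
          ρ (s - Real.log A / mu + c0 * ((w.sum : ℝ) - 2 * (ks.sum : ℝ)))) + ks.length * ε) := by
  obtain ⟨A1, hA1, hA1L, hpar⟩ := CZK.params d hN hε hCQ
  refine ⟨A1, hA1, hA1L, ?_⟩
  intro S Q ρ P hQ htr hρ hP ks
  have hNR : (20 : ℝ) ≤ N := by exact_mod_cast hN
  induction ks with
  | nil =>
    intro cap _ A hA hG s m hm
    have h := hP A hA hG s m hm
    simpa [FW, wwt] using h
  | cons k ks ih =>
    intro cap hcap A hA hG s m hm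
    obtain ⟨hG1, hG2, hG3, hG4⟩ := hG
    have hcapk : 3 * k ≤ cap := hcap k (by simp)
    have hcap' : ∀ k' ∈ ks, 3 * k' ≤ cap := fun k' hk' => hcap k' (by simp [hk'])
    have hAL : 1000 ≤ Real.log A := hA1L.trans (Real.log_le_log hA1 hG1)
    set t := Real.log A with ht
    have hk0 : (400:ℝ) ≤ k := by linarith
    have hk1 : 1 ≤ k := by
      have : (1:ℝ) ≤ k := by linarith
      exact_mod_cast this
    have hkpos : (0:ℝ) < k := by linarith
    set a : ℝ := (k:ℝ) / N with ha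
    have ha0 : 0 < a := by positivity
    have hak : a ≤ k / 20 := by
      rw [ha]
      exact div_le_div_of_nonneg_left hkpos.le (by norm_num) hNR
    obtain ⟨Tl, Tm, hTm, hT, hmass⟩ := mass_win hk1 ha0 hak
    set m' := ⌊Real.sqrt (0.8 * t)⌋₊ with hm'
    have hm'sq : (m' : ℝ) ^ 2 ≤ 0.8 * t := by
      have h1 : (m' : ℝ) ≤ Real.sqrt (0.8 * t) := Nat.floor_le (Real.sqrt_nonneg _)
      have h2 : Real.sqrt (0.8 * t) ^ 2 = 0.8 * t := Real.sq_sqrt (by positivity)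
      have h3 : (0:ℝ) ≤ m' := by positivity
      nlinarith [Real.sqrt_nonneg (0.8 * t)]
    have hm'k : m' ≤ k := by
      have h1 : (m' : ℝ) ≤ k := by
        by_contra hcon
        push Not at hcon
        nlinarith
      exact_mod_cast h1
    have hp := hpar A hG1 k m m' hm hG2 hG3 rfl
    -- the sums
    set H : ℕ → ℝ := fun T => ∑ w' ∈ FW cap ks.sum, wwt w' *
      ρ (s - t / mu + c0 * ((T : ℝ) - 2 * k) + c0 * ((w'.sum : ℝ) - 2 * (ks.sum : ℝ))) with hH
    have hstage := stageW hd hd3 (S := S s)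
      (fun T => S (s - T) ∪ Q) hA (k := k) (m := m) (m' := m') (Tl := Tl) (Tm := Tm) hk1 hm'k hTm
      (ρ := fun T => H T + ks.length * ε + CQ / (0.8 * t)) ?_ ?_
    · refine PB_mono hA ?_ hstage
      have hw1 : ∑ w ∈ GW (3 * k) k Tl Tm, wwt w ≤ 1 := by
        refine le_trans (sum_le_sum_of_subset_of_nonneg (filter_subset _ _)
          (fun w _ _ => wwt_nonneg w)) (sum_wwt_le (3 * k) k)
      have hw0 : 0 ≤ ∑ w ∈ GW (3 * k) k Tl Tm, wwt w := sum_nonneg (fun w _ => wwt_nonneg w)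
      have e1 : ∑ w ∈ GW (3 * k) k Tl Tm, wwt w * (H w.sum + ks.length * ε + CQ / (0.8 * t)) =
          ∑ w ∈ GW (3 * k) k Tl Tm, wwt w * H w.sum +
            (∑ w ∈ GW (3 * k) k Tl Tm, wwt w) * (ks.length * ε + CQ / (0.8 * t)) := by
        rw [sum_mul, ← sum_add_distrib]
        apply sum_congr rfl
        intro w _
        ring
      have e2 : (∑ w ∈ GW (3 * k) k Tl Tm, wwt w) * (ks.length * ε + CQ / (0.8 * t)) ≤
          1 * (ks.length * ε + CQ / (0.8 * t)) :=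
        mul_le_mul_of_nonneg_right hw1 (by positivity)
      have e3 : ∑ w ∈ GW (3 * k) k Tl Tm, wwt w * H w.sum ≤
          ∑ w ∈ FW cap (k :: ks).sum, wwt w *
            ρ (s - t / mu + c0 * ((w.sum : ℝ) - 2 * ((k :: ks).sum : ℝ))) := by
        rw [List.sum_cons, sum_FW_add]
        have hsub : GW (3 * k) k Tl Tm ⊆ FW cap k := by
          intro w hw
          have hw' := (mem_filter.1 hw).1
          rw [mem_FW] at hw' ⊢
          exact ⟨hw'.1, fun e he => ⟨(hw'.2 e he).1, (hw'.2 e he).2.trans hcapk⟩⟩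
        calc ∑ w ∈ GW (3 * k) k Tl Tm, wwt w * H w.sum
            ≤ ∑ w ∈ FW cap k, wwt w * H w.sum := by
              apply sum_le_sum_of_subset_of_nonneg hsub
              intro w _ _
              apply mul_nonneg (wwt_nonneg w)
              rw [hH]
              exact sum_nonneg (fun w' _ => mul_nonneg (wwt_nonneg _) (hρ _))
          _ = _ := by
              apply sum_congr rfl
              intro w _
              rw [hH, mul_sum]
              apply sum_congr rfl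
              intro w' _
              rw [wwt_append, List.sum_append, mul_assoc]
              congr 3
              push_cast
              ring
      have e4 : (((k :: ks).length : ℕ) : ℝ) * ε = ks.length * ε + ε := by
        rw [List.length_cons]
        push_cast
        ring
      rw [e1, e4]
      rw [← ha] at hp
      linarith
    · intro w hw M x hM hx hAM _ hMS hV
      have hw' := (mem_filter.1 hw).1
      rw [mem_FW] at hw'
      refine htr s w (fun a ha => (hw'.2 a ha).1) M x hM hx ?_ hMS hV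
      have : (0:ℝ) < M := lt_of_lt_of_le hA hAM
      exact_mod_cast this
    · intro T hTl hTm'
      have hTa : |(T:ℝ) - 2 * k| ≤ a := (hT T).1 ⟨hTl, hTm'⟩
      have hTk : |(T:ℝ) - 2 * k| ≤ k / 20 := hTa.trans hak
      obtain ⟨n1, n2, n3⟩ := next_flex hA hAL hG2 hG3 hTk
      rw [← ht] at n1 n2 n3
      have hAT : 0 < A * 3 ^ k / 2 ^ T := by positivity
      have hGd := hG4 T (by
        rw [ha, le_div_iff₀ (by positivity)] at hTa
        linarith)
      have hm'2 : (m' : ℝ) ^ 2 ≤ Real.log (A * 3 ^ k / 2 ^ T) := hm'sq.trans n1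
      have h1 := ih cap hcap' (A * 3 ^ k / 2 ^ T) hAT hGd (s - T) m' hm'2
      have h2 := hQ (A * 3 ^ k / 2 ^ T) hAT (by linarith) m' hm'2
      have h3 : CQ / Real.log (A * 3 ^ k / 2 ^ T) ≤ CQ / (0.8 * t) :=
        div_le_div_of_nonneg_left hCQ (by positivity) n1
      have h4 := PB_union h1 (PB_mono hAT h3 h2)
      refine PB_mono hAT (le_of_eq ?_) h4
      rw [hH, n3]
      congr 2
      apply sum_congr rfl
      intro w' _
      congr 2
      push_cast
      ring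

end Pool.Agent.H499R2.CZ
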