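import Pool.Agent.H33.G.R_seed8.H499R2.CZ.GH
import Pool.Agent.H33.G.R_seed8.H499R2.CZ.K
import Pool.Agent.H33.G.R_seed8.H499R2.CL.M2

/-! Project CZ, task M: the central limit theorem in windows, for the maps `3x+d`. -/

set_option autoImplicit false

namespace Pool.Agent.H499R2.CZ

open Pool.Agent.H320R2.PD Finset Filter Topology

open Pool.Agent.H499R2.ND hiding La Ea Me FC

open Pool.Agent.H319R2.Lln (mu)

open Classical in
/-- composition of the stages for a family of sets which is small for the good times and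
bounded for all times -/
theorem M_core {d : ℤ} (hd : Odd d) (hd3 : IsCoprime d 3) {S : ℤ → Set ℤ} {Q : Set ℤ} {CQ : ℝ} (hCQ : 0 ≤ CQ)
    (hQ : ∀ A, 0 < A → 800 ≤ Real.log A → ∀ m : ℕ, (m : ℝ) ^ 2 ≤ Real.log A → PB Q A m (CQ / Real.log A))
    (htr : ∀ s, ∀ w : List ℕ, (∀ a ∈ w, 1 ≤ a) → ∀ M x : ℤ, Odd M → Odd x → 0 < M → M ∈ S s →
      Vw d w M x → x ∈ S (s - w.sum) ∪ Q)
    {δ' η : ℝ} (hδ' : 0 ≤ δ') (hη : 0 ≤ η) (bad : ℝ → ℝ → Prop) {At : ℝ} (hAt : 0 < At)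
    (hgood : ∀ A : ℝ, At ≤ A → ∀ (s : ℤ) (m : ℕ), (m : ℝ) ^ 2 ≤ Real.log A → ∀ B : ℝ,
      Real.sqrt (Real.log A) ≤ B → ¬ bad B (s - Real.log A / mu) → PB (S s) A m η)
    (hall : ∀ A : ℝ, At ≤ A → ∀ (s : ℤ) (m : ℕ), (m : ℝ) ^ 2 ≤ Real.log A → PB (S s) A m δ')
    (J : ℕ) {ε : ℝ} (hε : 0 < ε) :
    ∃ L0 : ℝ, ∀ A : ℝ, 0 < A → L0 ≤ Real.log A → ∃ K cap : ℕ,
      |(K : ℝ) - (1 - (1 - 0.9 * mu) ^ J) * Real.log A / (2 * mu)| ≤ J ∧
      ∀ s : ℤ, PB (S s) A 0 (η + δ' * (∑ w ∈ (FW cap K).filter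
        (fun w => bad (Real.sqrt (1.05 * ((1 - 0.9 * mu) ^ J * Real.log A)))
          (s - Real.log A / mu + c0 * ((w.sum : ℝ) - 2 * (K : ℝ)))), wwt w) + ε) := by
  have hmu := mu_pos'
  have hmb := mu_bounds
  have hg0 : 0 < 1 - 0.9 * mu := by linarith [hmb.2]
  set g : ℝ := 1 - 0.9 * mu with hg
  obtain ⟨N, hN, hlen⟩ := lengths J
  obtain ⟨A1, hA1, hA1', hcomp⟩ := compose hd hd3 (N := N) hN (ε := ε / (J + 1)) (by positivity) hCQ
  obtain ⟨L1, hL1⟩ := hlen A1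
  have hgJ : 0 < g ^ J := by positivity
  refine ⟨max (max L1 0) (|Real.log At| / (0.95 * g ^ J)), ?_⟩
  intro A hA hLA
  have hLA1 : L1 ≤ Real.log A := ((le_max_left _ _).trans (le_max_left _ _)).trans hLA
  have hLA0 : 0 ≤ Real.log A := ((le_max_right _ _).trans (le_max_left _ _)).trans hLA
  have hLA2 : |Real.log At| / (0.95 * g ^ J) ≤ Real.log A := (le_max_right _ _).trans hLA
  obtain ⟨ks, hks, hGd, hK⟩ := hL1 A hA hLA1
  refine ⟨ks.sum, 3 * ks.sum, hK, ?_⟩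
  intro s
  set L := Real.log A with hL
  set B := Real.sqrt (1.05 * (g ^ J * L)) with hB
  have h := hcomp S Q (fun t => if bad B t then δ' else η)
    (fun A' => |Real.log A' - g ^ J * L| ≤ g ^ J * L / 20) hQ htr (by
      intro t; split_ifs <;> assumption) (by
      intro A' hA' hP s' m hm
      have hP' := abs_le.1 hP
      have hAtA : At ≤ A' := by
        have h1 : Real.log At ≤ Real.log A' := by
          rw [div_le_iff₀ (by positivity)] at hLA2
          have := le_abs_self (Real.log At)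
          nlinarith [hP'.1]
        exact (Real.log_le_log_iff hAt hA').1 h1
      split_ifs with hb
      · exact hall A' hAtA s' m hm
      · refine hgood A' hAtA s' m hm B ?_ hb
        rw [hB]
        apply Real.sqrt_le_sqrt
        linarith [hP'.2])
    ks (3 * ks.sum) (by
      intro k hk
      have := List.single_le_sum (l := ks) (fun _ _ => Nat.zero_le _) k hk
      omega) A hA hGd s 0 (by simpa using hLA0)
  refine PB_mono hA ?_ h
  have h1 : ∑ w ∈ FW (3 * ks.sum) ks.sum, wwt w *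
        (if bad B (s - L / mu + c0 * ((w.sum : ℝ) - 2 * (ks.sum : ℝ))) then δ' else η)
      ≤ η + δ' * (∑ w ∈ (FW (3 * ks.sum) ks.sum).filter
        (fun w => bad B (s - L / mu + c0 * ((w.sum : ℝ) - 2 * (ks.sum : ℝ)))), wwt w) := by
    rw [sum_filter, mul_sum]
    have h2 : ∑ w ∈ FW (3 * ks.sum) ks.sum, wwt w *
        (if bad B (s - L / mu + c0 * ((w.sum : ℝ) - 2 * (ks.sum : ℝ))) then δ' else η)
        ≤ ∑ w ∈ FW (3 * ks.sum) ks.sum, (η * wwt w + δ' *
          (if bad B (s - L / mu + c0 * ((w.sum : ℝ) - 2 * (ks.sum : ℝ))) then wwt w else 0)) := by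
      apply sum_le_sum
      intro w _
      have hw := wwt_nonneg w
      split_ifs
      · have : 0 ≤ η * wwt w := by positivity
        linarith
      · linarith
    refine h2.trans ?_
    rw [sum_add_distrib, ← mul_sum]
    have h3 := sum_wwt_le (3 * ks.sum) ks.sum
    have : η * ∑ w ∈ FW (3 * ks.sum) ks.sum, wwt w ≤ η * 1 := mul_le_mul_of_nonneg_left h3 hη
    linarith
  have h4 : (ks.length : ℝ) * (ε / (J + 1)) ≤ ε := by
    rw [hks]
    have : (J : ℝ) * (ε / (J + 1)) = ε * (J / (J + 1)) := by ring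
    rw [this]
    have h5 : (J : ℝ) / (J + 1) ≤ 1 := by
      rw [div_le_one (by positivity)]; linarith
    nlinarith
  linarith

theorem late_clt' {d : ℤ} (hd : Odd d) (hd3 : IsCoprime d 3) {R : Set ℤ} (hR : FC d R) {δ : ℝ} (hδ : 0 ≤ δ)
    (hM : ∀ ε : ℝ, 0 < ε → ∃ A0 : ℝ, 0 < A0 ∧ ∀ A : ℝ, A0 ≤ A → ∀ m : ℕ, (m : ℝ) ^ 2 ≤ Real.log A →
      PB (Me d R) A m (δ + ε)) (z : ℝ) {ε : ℝ} (hε : 0 < ε) :
    ∃ A0 : ℝ, 0 < A0 ∧ ∀ A : ℝ, A0 ≤ A → ∀ s : ℤ, Real.log A / mu + z * sg * Real.sqrt (Real.log A) ≤ s →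
      PB (La d R s) A 0 (δ * (1 - Phi z) + ε) := by
  classical
  have hc0 := c0_pos
  have he : 0 < ε / (8 * (δ + 1)) := by positivity
  obtain ⟨θ, hθ, hθ'⟩ := M_Phi_near (-z) he
  have h2p : 0 < min 1 (ε / 8) := by apply lt_min <;> linarith
  obtain ⟨AM, hAM, hAM'⟩ := hM _ h2p
  obtain ⟨Kt, At, hKt, hAt, htight⟩ := late_tight hd hd3 hR (show 0 < ε / 8 by positivity)
  obtain ⟨J, hJ1, L2, hL2⟩ := key_len z Kt hθ
  obtain ⟨K0, hK0⟩ := word_clt (-z + θ) he
  obtain ⟨L3, hL3⟩ := M_large J hJ1 K0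
  obtain ⟨L0, hL0⟩ := M_core hd hd3 (S := La d R) (Q := ∅) (CQ := 0) le_rfl
    (by
      intro A hA _ m _ u v _
      have : cls ∅ A (2 * A) m u v = ∅ := by
        ext x
        rw [mem_cls]
        simp
      rw [this]
      simp)
    (fun s w hw M x hMo hx hM0 hMS h => Or.inl (La_word hd hR hw hMo hx hMS h))
    (δ' := δ + min 1 (ε / 8)) (η := ε / 8) (by positivity) (by positivity)
    (fun B t => t < Kt * B) (At := max At AM) (lt_max_of_lt_left hAt)
    (by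
      intro A hA s m hm B hB hb
      refine htight A ((le_max_left _ _).trans hA) s ?_ m hm
      have h1 : Kt * Real.sqrt (Real.log A) ≤ Kt * B := mul_le_mul_of_nonneg_left hB (by linarith)
      linarith [not_lt.1 hb])
    (by
      intro A hA s m hm
      exact PB_sub (fun x _ _ hx => hx.1) (hAM' A ((le_max_right _ _).trans hA) m hm))
    J (show 0 < ε / 8 by positivity)
  refine ⟨Real.exp (max (max L0 L2) L3), Real.exp_pos _, ?_⟩
  intro A hA s hs
  have hA0 : 0 < A := lt_of_lt_of_le (Real.exp_pos _) hA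
  have hLA : max (max L0 L2) L3 ≤ Real.log A := by
    rw [Real.le_log_iff_exp_le hA0]; exact hA
  obtain ⟨K, cap, hK, hPB⟩ := hL0 A hA0 (((le_max_left _ _).trans (le_max_left _ _)).trans hLA)
  have hkey := hL2 (Real.log A) (((le_max_right _ _).trans (le_max_left _ _)).trans hLA) K hK
  have hKK := hL3 (Real.log A) ((le_max_right _ _).trans hLA) K hK
  refine PB_mono hA0 ?_ (hPB s)
  refine M_arith hδ (by linarith [M_Phi_nonneg z]) hε rfl ?_ rfl rfl
  have hw := (hK0 K hKK cap).1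
  rw [Phi_neg] at hθ'
  refine le_trans ?_ (hw.trans (by linarith))
  apply sum_le_sum_of_subset_of_nonneg
  · intro w hw
    rw [mem_filter] at hw ⊢
    refine ⟨hw.1, ?_⟩
    have h1 := hw.2
    have h2 : c0 * ((w.sum : ℝ) - 2 * (K : ℝ)) ≤ c0 * ((-z + θ) * Real.sqrt (2 * K)) := by
      linarith
    have h3 := le_of_mul_le_mul_left h2 hc0
    linarith
  · intro w _ _
    exact wwt_nonneg w

theorem early_clt' {d : ℤ} (hd : Odd d) (hd3 : IsCoprime d 3) {R : Set ℤ} (hR : FC d R) (hS : Sp R) {δ : ℝ} (hδ : 0 ≤ δ)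
    (hM : ∀ ε : ℝ, 0 < ε → ∃ A0 : ℝ, 0 < A0 ∧ ∀ A : ℝ, A0 ≤ A → ∀ m : ℕ, (m : ℝ) ^ 2 ≤ Real.log A →
      PB (Me d R) A m (δ + ε)) (z : ℝ) {ε : ℝ} (hε : 0 < ε) :
    ∃ A0 : ℝ, 0 < A0 ∧ ∀ A : ℝ, A0 ≤ A → ∀ s : ℤ, (s : ℝ) ≤ Real.log A / mu + z * sg * Real.sqrt (Real.log A) →
      PB (Ea d R s) A 0 (δ * Phi z + ε) := by
  classical
  have hc0 := c0_pos
  have he : 0 < ε / (8 * (δ + 1)) := by positivity
  obtain ⟨θ, hθ, hθ'⟩ := M_Phi_near z he
  have h2p : 0 < min 1 (ε / 8) := by apply lt_min <;> linarith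
  obtain ⟨AM, hAM, hAM'⟩ := hM _ h2p
  obtain ⟨Kt, At, hKt, hAt, htight⟩ := early_tight hd hd3 hR hS (show 0 < ε / 8 by positivity)
  obtain ⟨J, hJ1, L2, hL2⟩ := key_len (-z) Kt hθ
  obtain ⟨K0, hK0⟩ := word_clt (-(z + θ)) he
  obtain ⟨L3, hL3⟩ := M_large J hJ1 K0
  obtain ⟨CR, hCR, hCR'⟩ := hS
  obtain ⟨L0, hL0⟩ := M_core hd hd3 (S := Ea d R) (Q := R) (CQ := CR) hCR
    (fun A hA h8 m hm => hCR' A hA (by linarith) m hm)
    (fun s w hw M x hMo hx hM0 hMS h => Ea_word hd hR hw hMo hx hMS h)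
    (δ' := δ + min 1 (ε / 8)) (η := ε / 8) (by positivity) (by positivity)
    (fun B t => -(Kt * B) < t) (At := max At AM) (lt_max_of_lt_left hAt)
    (by
      intro A hA s m hm B hB hb
      refine htight A ((le_max_left _ _).trans hA) s ?_ m hm
      have h1 : Kt * Real.sqrt (Real.log A) ≤ Kt * B := mul_le_mul_of_nonneg_left hB (by linarith)
      linarith [not_lt.1 hb])
    (by
      intro A hA s m hm
      refine PB_sub (fun x _ _ hx => ?_) (hAM' A ((le_max_right _ _).trans hA) m hm)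
      obtain ⟨k, _, hk⟩ := hx
      exact ⟨k, hk⟩)
    J (show 0 < ε / 8 by positivity)
  refine ⟨Real.exp (max (max L0 L2) L3), Real.exp_pos _, ?_⟩
  intro A hA s hs
  have hA0 : 0 < A := lt_of_lt_of_le (Real.exp_pos _) hA
  have hLA : max (max L0 L2) L3 ≤ Real.log A := by
    rw [Real.le_log_iff_exp_le hA0]; exact hA
  obtain ⟨K, cap, hK, hPB⟩ := hL0 A hA0 (((le_max_left _ _).trans (le_max_left _ _)).trans hLA)
  have hkey := hL2 (Real.log A) (((le_max_right _ _).trans (le_max_left _ _)).trans hLA) K hK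
  have hKK := hL3 (Real.log A) ((le_max_right _ _).trans hLA) K hK
  refine PB_mono hA0 ?_ (hPB s)
  refine M_arith hδ (M_Phi_le_one z) hε rfl ?_ rfl rfl
  have hw := (hK0 K hKK cap).2
  rw [Phi_neg] at hw
  refine le_trans ?_ (hw.trans (by linarith))
  apply sum_le_sum_of_subset_of_nonneg
  · intro w hw
    rw [mem_filter] at hw ⊢
    refine ⟨hw.1, ?_⟩
    have h1 := hw.2
    have h2 : c0 * (-((z + θ) * Real.sqrt (2 * K))) ≤ c0 * ((w.sum : ℝ) - 2 * (K : ℝ)) := by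
      rw [neg_neg] at hkey
      linarith
    have h3 := le_of_mul_le_mul_left h2 hc0
    linarith
  · intro w _ _
    exact wwt_nonneg w

end Pool.Agent.H499R2.CZ
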